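import Mathlib

/-!
Polynomials which are homogeneous for integral weights, and their factors (helper961, job KZ9 of
helper192).
-/

set_option autoImplicit false

namespace Pool.Agent.Y961.KZ

open MvPolynomial

section weights

variable {k : Type*} [Field k] {b : ℕ} (l : Fin b → ℤ)

/-- homogeneous polynomials with respect to integral weights -/
def Hl (A : MvPolynomial (Fin b) k) : Prop := ∃ a : ℤ, ∀ c ∈ A.support, ∑ i, l i * c i = a

/-- `X i ↦ X i * T ^ l i` -/
noncomputable def Lw : MvPolynomial (Fin b) k →ₐ[k] LaurentPolynomial (MvPolynomial (Fin b) k) :=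
  aeval fun i => LaurentPolynomial.C (X i) * LaurentPolynomial.T (l i)

lemma Lw_monomial (c : Fin b →₀ ℕ) (a : k) :
    Lw l (monomial c a) = LaurentPolynomial.C (monomial c a) *
      LaurentPolynomial.T (∑ i, l i * c i) := by
  rw [Lw, aeval_monomial, monomial_eq, Finsupp.prod_fintype _ _ (by simp),
    Finsupp.prod_fintype _ _ (by simp), map_mul, map_prod]
  simp only [mul_pow, map_pow, LaurentPolynomial.T_pow]
  rw [Finset.prod_mul_distrib, ← mul_assoc]
  have h1 : ∀ s : Finset (Fin b), (∏ i ∈ s, (LaurentPolynomial.T ((c i : ℤ) * l i) :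
      LaurentPolynomial (MvPolynomial (Fin b) k))) =
      LaurentPolynomial.T (∑ i ∈ s, l i * c i) := by
    intro s
    induction s using Finset.induction_on with
    | empty => rw [Finset.prod_empty, Finset.sum_empty, LaurentPolynomial.T_zero]
    | insert a s ha ih =>
      rw [Finset.prod_insert ha, Finset.sum_insert ha, LaurentPolynomial.T_add, ih, mul_comm (l a)]
  rw [h1]
  congr 2

lemma Lw_coeff (p : MvPolynomial (Fin b) k) (j : ℤ) (d : Fin b →₀ ℕ) :
    coeff d ((Lw l p).coeff j) = if ∑ i, l i * d i = j then coeff d p else 0 := by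
  classical
  induction p using MvPolynomial.induction_on' with
  | monomial c a =>
    rw [Lw_monomial, ← LaurentPolynomial.single_eq_C_mul_T, AddMonoidAlgebra.coeff_single, Finsupp.single_apply]
    by_cases h : c = d
    · subst h
      split_ifs <;> simp
    · have h2 : coeff d (monomial c a : MvPolynomial (Fin b) k) = 0 := by
        rw [coeff_monomial, if_neg h]
      rw [h2]
      split_ifs <;> simp [h2]
  | add p q hp hq =>
    rw [map_add, AddMonoidAlgebra.coeff_add, Finsupp.add_apply, coeff_add, hp, hq, coeff_add]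
    split_ifs <;> simp

lemma Lw_hom {p : MvPolynomial (Fin b) k} {e : ℤ}
    (hp : ∀ c ∈ p.support, ∑ i, l i * c i = e) :
    Lw l p = LaurentPolynomial.C p * LaurentPolynomial.T e := by
  apply LaurentPolynomial.ext
  intro j
  ext d
  rw [Lw_coeff, ← LaurentPolynomial.single_eq_C_mul_T, AddMonoidAlgebra.coeff_single, Finsupp.single_apply]
  by_cases h : coeff d p = 0
  · split_ifs <;> simp [h]
  · have h1 := hp d (mem_support_iff.2 h)
    by_cases h2 : e = j
    · rw [if_pos h2, if_pos (by rw [h1, h2])]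
    · rw [if_neg h2, if_neg (by rw [h1]; exact h2), coeff_zero]

lemma Lw_ne_zero {p : MvPolynomial (Fin b) k} (hp : p ≠ 0) : Lw l p ≠ 0 := by
  obtain ⟨d, hd⟩ := MvPolynomial.ne_zero_iff.1 hp
  intro h
  apply hd
  have h1 := Lw_coeff l p (∑ i, l i * d i) d
  rw [h, if_pos rfl] at h1
  rw [← h1]
  simp

/-- exponents of a shifted Laurent polynomial -/
lemma supp {p : MvPolynomial (Fin b) k} {n : ℕ} {P : Polynomial (MvPolynomial (Fin b) k)}
    (h : Polynomial.toLaurent P = Lw l p * LaurentPolynomial.T n) {c : Fin b →₀ ℕ}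
    (hc : c ∈ p.support) : ∃ i ∈ P.support, (i : ℤ) = ∑ i, l i * c i + n := by
  have h1 : (Polynomial.toLaurent P).coeff (∑ i, l i * c i + n) ≠ 0 := by
    rw [h]
    have h2 : (Lw l p * LaurentPolynomial.T n).coeff (∑ i, l i * c i + n) =
        (Lw l p).coeff (∑ i, l i * c i) := by
      unfold LaurentPolynomial.T
      rw [AddMonoidAlgebra.coeff_mul_single_apply]
      simp
    rw [h2]
    intro h3
    have h4 := Lw_coeff l p (∑ i, l i * c i) c
    rw [h3, if_pos rfl, coeff_zero] at h4
    exact mem_support_iff.1 hc h4.symm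
  have h2 : (∑ i, l i * c i + n : ℤ) ∈ (Polynomial.toLaurent P).coeff.support :=
    Finsupp.mem_support_iff.2 h1
  rw [LaurentPolynomial.support_coeff_toLaurent, Finset.mem_map] at h2
  obtain ⟨i, hi, h3⟩ := h2
  exact ⟨i, hi, h3⟩

/-- a factor of a nonzero homogeneous polynomial is homogeneous -/
lemma hl_of_mul {p q : MvPolynomial (Fin b) k} (h : Hl l (p * q)) (h0 : p * q ≠ 0) : Hl l p := by
  obtain ⟨D, hD⟩ := h
  have hp0 : p ≠ 0 := left_ne_zero_of_mul h0
  have hq0 : q ≠ 0 := right_ne_zero_of_mul h0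
  obtain ⟨n, P, hP⟩ := LaurentPolynomial.exists_T_pow (Lw l p)
  obtain ⟨m, Q, hQ⟩ := LaurentPolynomial.exists_T_pow (Lw l q)
  have hPQ : Polynomial.toLaurent (P * Q) =
      LaurentPolynomial.C (p * q) * LaurentPolynomial.T (D + n + m) := by
    rw [map_mul, hP, hQ, LaurentPolynomial.T_add, LaurentPolynomial.T_add]
    have h1 := Lw_hom l hD
    rw [map_mul] at h1
    calc Lw l p * LaurentPolynomial.T n * (Lw l q * LaurentPolynomial.T m)
        = Lw l p * Lw l q * (LaurentPolynomial.T n * LaurentPolynomial.T m) := by ring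
      _ = _ := by rw [h1]; ring
  have hP0 : P ≠ 0 := by
    intro h1
    rw [h1, map_zero] at hP
    exact mul_ne_zero (Lw_ne_zero l hp0) (LaurentPolynomial.isUnit_T _).ne_zero hP.symm
  have hQ0 : Q ≠ 0 := by
    intro h1
    rw [h1, map_zero] at hQ
    exact mul_ne_zero (Lw_ne_zero l hq0) (LaurentPolynomial.isUnit_T _).ne_zero hQ.symm
  have h2 := LaurentPolynomial.trunc_C_mul_T (D + n + m) (p * q)
  rw [← hPQ, Polynomial.trunc_toLaurent] at h2
  have h3 : 0 ≤ D + n + m := by
    by_contra hc
    rw [if_neg hc] at h2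
    exact mul_ne_zero hP0 hQ0 h2
  rw [if_pos h3] at h2
  have hdeg : P.natDegree + Q.natDegree = (D + n + m).toNat := by
    rw [← Polynomial.natDegree_mul hP0 hQ0, h2, Polynomial.natDegree_monomial_eq _ h0]
  have htr : P.natTrailingDegree + Q.natTrailingDegree = (D + n + m).toNat := by
    rw [← Polynomial.natTrailingDegree_mul hP0 hQ0, h2, Polynomial.natTrailingDegree_monomial h0]
  have hle1 := Polynomial.natTrailingDegree_le_natDegree P
  have hle2 := Polynomial.natTrailingDegree_le_natDegree Q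
  refine ⟨P.natDegree - n, fun c hc => ?_⟩
  obtain ⟨i, hi, h4⟩ := supp l hP hc
  have h5 := Polynomial.le_natDegree_of_ne_zero (Polynomial.mem_support_iff.1 hi)
  have h6 := Polynomial.natTrailingDegree_le_of_ne_zero (Polynomial.mem_support_iff.1 hi)
  have h7 : i = P.natDegree := by omega
  rw [← h7]
  linarith

variable {l}

lemma Hl.of_dvd {p q : MvPolynomial (Fin b) k} (hq : Hl l q) (h0 : q ≠ 0) (h : p ∣ q) :
    Hl l p := by
  obtain ⟨r, rfl⟩ := h
  exact hl_of_mul l hq h0

lemma Hl.one : Hl l (1 : MvPolynomial (Fin b) k) := by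
  classical
  refine ⟨0, fun c hc => ?_⟩
  have h1 : c = 0 := by
    by_contra h
    rw [mem_support_iff, coeff_one, if_neg (fun h' => h h'.symm)] at hc
    exact hc rfl
  simp [h1]

lemma Hl.X (i : Fin b) : Hl l (X i : MvPolynomial (Fin b) k) := by
  classical
  refine ⟨l i, fun c hc => ?_⟩
  have h1 : Finsupp.single i 1 = c := by
    by_contra h
    rw [mem_support_iff, coeff_X, if_neg h] at hc
    exact hc rfl
  rw [← h1, Finset.sum_eq_single i]
  · simp
  · intro j _ hj
    rw [Finsupp.single_eq_of_ne hj]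
    simp
  · intro h
    exact absurd (Finset.mem_univ i) h

lemma Hl.mul {p q : MvPolynomial (Fin b) k} (hp : Hl l p) (hq : Hl l q) : Hl l (p * q) := by
  classical
  obtain ⟨a, ha⟩ := hp
  obtain ⟨a', ha'⟩ := hq
  refine ⟨a + a', fun c hc => ?_⟩
  obtain ⟨c1, h1, c2, h2, rfl⟩ := Finset.mem_add.1 (support_mul p q hc)
  rw [← ha c1 h1, ← ha' c2 h2, ← Finset.sum_add_distrib]
  refine Finset.sum_congr rfl fun i _ => ?_
  rw [Finsupp.add_apply]
  push_cast
  ring

end weights

end Pool.Agent.Y961.KZ
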