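import Pool.Agent.Y961.KZ.BadU
import Pool.Agent.Y961.KZ.Hl
import Pool.Agent.Y192.KC.ZDefs

/-!
The essential part of finitely many polynomials, with its prime factors (helper961, job KZ9 of
helper192).
-/

set_option autoImplicit false

namespace Pool.Agent.Y961.KZ

open MvPolynomial
open Pool.Agent.Y537.KC (Clo)

/-- The essential part of finitely many polynomials, with its prime factors. -/
theorem t_badZ : Pool.Agent.Y192.KC.St_badZ := by
  intro k _ _ b r F e hF
  obtain ⟨g, H, S, h1, h0, h2, h3, h4⟩ :=
    badU (fun i : Fin b => (X i : MvPolynomial (Fin b) k)) (fun i => X_prime) F hF e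
  refine ⟨g, H, S, h1, h2, fun l hl j => ?_, h4⟩
  exact h3 (fun p => Hl l p) ⟨Hl.one, fun a b ha hb => ha.mul hb,
    fun a b hb h0 hab => hb.of_dvd h0 hab, fun i => Hl.X i⟩ hl j

end Pool.Agent.Y961.KZ
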