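import Pool.Agent.Y496.KC.Exp
import Pool.Agent.Y192.KC.ZDefs

/-!
From punctured discs to entire curves and to morphisms from the multiplicative group, over `Z`
(helper961, job KZ3 of helper192; the proof is the one of `Pool.Agent.Y496.KC.t_exp` by helper496,
which does not use the function field).
-/

set_option autoImplicit false

namespace Pool.Agent.Y961.KZ

open MvPolynomial Metric Filter Topology
open Pool.Agent.Y192.KC Pool.Agent.Y496.KC

/-- From punctured discs to entire curves and to morphisms from the multiplicative group. -/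
theorem exp_all {n r : ℕ} (X : Cov n r) (m : ℕ) {L : Type} [Field L] [Algebra ℂ L]
    (t : Fin (n + 1) → L) (w : Fin r → L) :
    (PseudoPicard X m t w → PseudoBrody X m t w) ∧ (PseudoBrody X m t w → PseudoGm X m t w) := by
  constructor
  · rintro ⟨B, D, hB, hB0, hP⟩
    refine ⟨B, D, hB, hB0, ?_⟩
    intro u v hE z1
    by_contra hz1
    have hne : ∀ z, u z ≠ 0 := fun z => (hE.mem z).1
    have hcu := hE.diffu.continuous
    have hcv := hE.diffv.continuous
    have hcb : Continuous (fun z => eval (Sum.elim (u z) (v z)) B) := by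
      apply (MvPolynomial.continuous_eval B).comp
      apply continuous_pi
      rintro (i | j)
      · exact (continuous_apply i).comp hcu
      · exact (continuous_apply j).comp hcv
    obtain ⟨z2, hz2, hb2⟩ : ∃ z2 : ℂ, z2 ≠ 0 ∧ eval (Sum.elim (u z2) (v z2)) B ≠ 0 := by
      have hopen : IsOpen {z : ℂ | eval (Sum.elim (u z) (v z)) B ≠ 0} :=
        isOpen_ne_fun hcb continuous_const
      obtain ⟨z2, h2, h3⟩ := dense_ne.inter_open_nonempty _ hopen ⟨z1, hz1⟩
      exact ⟨z2, h3, h2⟩
    have hexp : DifferentiableOn ℂ (fun z : ℂ => Complex.exp z⁻¹) (ball 0 1 \ {0}) := by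
      intro z hz
      exact ((differentiableAt_inv hz.2).cexp).differentiableWithinAt
    have hD : Disc X m t w (fun z => u (Complex.exp z⁻¹)) (fun z => v (Complex.exp z⁻¹)) :=
      { diffu := hE.diffu.comp_differentiableOn hexp
        diffv := hE.diffv.comp_differentiableOn hexp
        mem := fun z _ => hE.mem _ }
    obtain ⟨z3, hz3, hb3⟩ : ∃ z ∈ ball (0 : ℂ) 1 \ {0},
        eval (Sum.elim (u (Complex.exp z⁻¹)) (v (Complex.exp z⁻¹))) B ≠ 0 := by
      have h1 : ∀ᶠ k in atTop, zk (Complex.log z2) k ∈ ball (0 : ℂ) 1 :=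
        (zk_tendsto _).eventually (ball_mem_nhds _ one_pos)
      obtain ⟨k, hk1, hk2⟩ := (h1.and (zk_ev_ne (Complex.log z2))).exists
      refine ⟨_, ⟨hk1, hk2⟩, ?_⟩
      rw [exp_zk, Complex.exp_log hz2]
      exact hb2
    obtain ⟨ρ, hρ, u', v', hu', hv', h0, hs⟩ := hP _ _ hD ⟨z3, hz3, hb3⟩
    have hmem : (0 : ℂ) ∈ ball (0 : ℂ) ρ := mem_ball_self hρ
    have hcu' : ContinuousAt u' 0 :=
      (hu'.continuousOn).continuousAt (isOpen_ball.mem_nhds hmem)
    have hcv' : ContinuousAt v' 0 :=
      (hv'.continuousOn).continuousAt (isOpen_ball.mem_nhds hmem)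
    obtain ⟨z, z', hzz⟩ := hE.nonconst
    exact hzz (const_of hcu hcv hne (h0 0 hmem)
      (same_of_extends hne hρ hcu' hcv' (h0 0 hmem) hs) z z')
  · rintro ⟨B, D, hB, hB0, hP⟩
    refine ⟨B, D, hB, hB0, ?_⟩
    intro p s hG z hz
    have hE : Entire X m t w (fun z i => (p i).eval (Complex.exp z))
        (fun z j => (s j).eval (Complex.exp z)) :=
      { diffu := by
          rw [differentiable_pi]
          intro i
          exact (p i).differentiable.comp Complex.differentiable_exp
        diffv := by
          rw [differentiable_pi]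
          intro j
          exact (s j).differentiable.comp Complex.differentiable_exp
        mem := fun z => hG.mem _ (Complex.exp_ne_zero z)
        nonconst := by
          obtain ⟨y, y', hy, hy', h⟩ := hG.nonconst
          refine ⟨Complex.log y, Complex.log y', ?_⟩
          rw [Complex.exp_log hy, Complex.exp_log hy']
          exact h }
    have := hP _ _ hE (Complex.log z)
    rwa [Complex.exp_log hz] at this

/-- From punctured discs to entire curves and to morphisms from the multiplicative group, over `Z`. -/
theorem t_zexp : St_zexp := by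
  intro n r X m _ _ L _ _ t w _
  exact exp_all X.toCov m t w

end Pool.Agent.Y961.KZ
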