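import Pool.Agent.Y537.KC.U

/-!
The bad part of a family of elements of a factorial ring, with its prime factors (helper961, job KZ9
of helper192; after `Pool.Agent.Y537.KC.U`).
-/

set_option autoImplicit false

namespace Pool.Agent.Y961.KZ

open UniqueFactorizationMonoid
open Pool.Agent.Y537.KC (Clo)

/-- The bad part; `e j = 0` stands for infinite multiplicity. -/
theorem badU {A ι : Type*} [CommRing A] [IsDomain A] [UniqueFactorizationMonoid A] (x : ι → A)
    (hx : ∀ i, Prime (x i)) {r : ℕ} (F : Fin r → A) (hF : ∀ j, F j ≠ 0) (e : Fin r → ℕ) :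
    ∃ (g : A) (H S : Fin r → A), Squarefree g ∧ g ≠ 0 ∧ (∀ j, F j = H j * S j ^ e j) ∧
    (∀ W : A → Prop, Clo x W → W g → ∀ j, W (H j)) ∧
    ∀ p, Irreducible p → p ∣ g → (∀ i, ¬ p ∣ x i) ∧
      ∃ (j : Fin r) (s : ℕ) (B : A), F j = p ^ s * B ∧ ¬ p ∣ B ∧ ¬ e j ∣ s := by
  classical
  let _ : NormalizationMonoid A := (UniqueFactorizationMonoid.strongNormalizationMonoid
    (α := A)).toNormalizationMonoid
  set PP : A := ∏ j, F j with hPP
  have hPP0 : PP ≠ 0 := Finset.prod_ne_zero_iff.2 fun j _ => hF j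
  let c : Fin r → A → ℕ := fun j p => (normalizedFactors (F j)).count p
  let Bad : A → Prop := fun p => (∀ i, ¬ Associated p (x i)) ∧ ∃ j, ¬ (e j ∣ c j p)
  let S : Finset A := (normalizedFactors PP).toFinset.filter Bad
  have hS : ∀ p, p ∈ S ↔ (Irreducible p ∧ normalize p = p ∧ p ∣ PP) ∧ Bad p := by
    intro p
    rw [Finset.mem_filter, Multiset.mem_toFinset, mem_normalizedFactors_iff' hPP0]
  have hFd : ∀ j, F j ∣ PP := fun j => Finset.dvd_prod_of_mem F (Finset.mem_univ j)
  let g : A := ∏ p ∈ S, p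
  have hg0 : g ≠ 0 := Finset.prod_ne_zero_iff.2 fun p hp => ((hS p).1 hp).1.1.ne_zero
  have hpg : ∀ p ∈ S, p ∣ g := fun p hp => Finset.dvd_prod_of_mem (fun p => p) hp
  -- decomposition of an element
  have dec : ∀ f : A, f ≠ 0 → ∃ u : Aˣ, f = u * ∏ p ∈ (normalizedFactors f).toFinset,
      p ^ (normalizedFactors f).count p := by
    intro f hf
    obtain ⟨u, hu⟩ := prod_normalizedFactors hf
    refine ⟨u, ?_⟩
    rw [← Finset.prod_multiset_count, mul_comm, hu]
  choose u hu using fun j => dec (F j) (hF j)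
  let R : A → Prop := fun p => Bad p ∨ ∃ i, Associated p (x i)
  refine ⟨g, fun j => u j * ∏ p ∈ (normalizedFactors (F j)).toFinset.filter R,
      p ^ (normalizedFactors (F j)).count p,
    fun j => ∏ p ∈ (normalizedFactors (F j)).toFinset.filter (fun p => ¬ R p),
      p ^ ((normalizedFactors (F j)).count p / e j), ?_, hg0, ?_, ?_, ?_⟩
  · -- squarefree
    apply Finset.squarefree_prod_of_pairwise_isCoprime
    · intro p hp q hq hpq
      have h1 := ((hS p).1 hp).1
      have h2 := ((hS q).1 hq).1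
      show IsRelPrime p q
      rw [h1.1.isRelPrime_iff_not_dvd]
      intro h
      exact hpq ((h1.1.associated_of_dvd h2.1 h).eq_of_normalized h1.2.1 h2.2.1)
    · intro p hp
      exact ((hS p).1 hp).1.1.squarefree
  · -- factorization
    intro j
    rw [mul_assoc, ← Finset.prod_pow]
    have h1 : ∏ p ∈ (normalizedFactors (F j)).toFinset.filter (fun p => ¬ R p),
        (p ^ ((normalizedFactors (F j)).count p / e j)) ^ e j
        = ∏ p ∈ (normalizedFactors (F j)).toFinset.filter (fun p => ¬ R p),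
          p ^ (normalizedFactors (F j)).count p := by
      refine Finset.prod_congr rfl fun p hp => ?_
      rw [← pow_mul, Nat.div_mul_cancel]
      by_contra hcon
      obtain ⟨h2, h3⟩ := Finset.mem_filter.1 hp
      have h4 := not_or.1 h3
      exact h4.1 ⟨not_exists.1 h4.2, j, hcon⟩
    rw [h1, Finset.prod_filter_mul_prod_filter_not]
    exact hu j
  · intro W hW hWg j
    have hWS : ∀ p ∈ S, W p := fun p hp => hW.dvd p g hWg hg0 (hpg p hp)
    have hWu : ∀ u : Aˣ, W (u : A) := fun u => hW.dvd _ _ hW.one one_ne_zero u.isUnit.dvd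
    have hWv : ∀ p i, Associated p (x i) → W p := fun p i h =>
      hW.dvd _ _ (hW.var i) (hx i).ne_zero h.dvd
    refine hW.mul _ _ (hWu _) (hW.prod _ _ fun p hp => hW.pow ?_ _)
    obtain ⟨h2, h3⟩ := Finset.mem_filter.1 hp
    rw [Multiset.mem_toFinset, mem_normalizedFactors_iff' (hF j)] at h2
    rcases h3 with h3 | ⟨i, hi⟩
    · exact hWS p ((hS p).2 ⟨⟨h2.1, h2.2.1, h2.2.2.trans (hFd j)⟩, h3⟩)
    · exact hWv p i hi
  · intro p hp hpg'
    obtain ⟨q, hq, hpq⟩ := (hp.prime.dvd_finsetProd_iff _).1 hpg'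
    have h1 := (hS q).1 hq
    have h2 : Associated p q := hp.associated_of_dvd h1.1.1 hpq
    have h3 : normalize p = q := by
      rw [← h1.1.2.1]
      exact normalize_eq_normalize_iff_associated.2 h2
    refine ⟨fun i hi => ?_, ?_⟩
    · exact h1.2.1 i (h2.symm.trans (hp.associated_of_dvd (hx i).irreducible hi))
    · obtain ⟨j, hj⟩ := h1.2.2
      have h4 := emultiplicity_eq_count_normalizedFactors hp (hF j)
      rw [h3] at h4
      have h5 : FiniteMultiplicity p (F j) := by
        rw [finiteMultiplicity_iff_emultiplicity_ne_top, h4]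
        exact ENat.natCast_ne_top _
      obtain ⟨B, hB, hB1⟩ := h5.exists_eq_pow_mul_and_not_dvd
      refine ⟨j, multiplicity p (F j), B, hB, hB1, ?_⟩
      have h6 := multiplicity_eq_count_normalizedFactors hp (hF j)
      rw [h3] at h6
      rw [h6]
      exact hj

end Pool.Agent.Y961.KZ
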